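import Pool.Agent.D0H29.VD.Macro

set_option autoImplicit false
set_option linter.unusedSectionVars false
set_option linter.unusedVariables false

/-! # The values of the Charney-Davis quantity -/

namespace Pool.Agent.D0H29.VD

open Pool.Agent.W497.FS Pool.Agent.D0H80.CD

variable {ι : Type} {k : ι → Type} [∀ i, Field (k i)]

/-- there is a flag homology sphere of rank `d` with Charney-Davis quantity `l` and with an edge
whose link has the Charney-Davis quantity `q` -/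
def Ev (k : ι → Type) [∀ i, Field (k i)] (d : ℕ) (l q : ℚ) : Prop :=
  ∃ (α : Type) (_ : LinearOrder α) (_ : Fintype α) (H : SimpleGraph α) (W : Finset α) (a b : α),
    Sp k H d W ∧ a ∈ W ∧ b ∈ W ∧ H.Adj a b ∧ lam H W = l ∧ lam H (lk H (lk H W a) b) = q

/-- doubling away from the edge -/
theorem Ev.double {d : ℕ} {l q : ℚ} (h : Ev k (d + 1) l q) : Ev k (d + 1) (2 * l) q := by
  classical
  obtain ⟨α, _, _, H, W, a, b, hS, ha, hb, hab, hl, hq⟩ := h
  obtain ⟨c, hc, hca, hnc⟩ := hS.np.exists_nonadj ha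
  have hcb : b ≠ c := fun e => hnc (by rw [← e]; exact hab)
  set L := lk H W c with hL
  let β := α ×ₗ Bool
  have hmono : ∀ g : α → Bool, StrictMono (fun x => (toLex (x, g x) : β)) := by
    intro g x y hxy
    exact Prod.Lex.toLex_lt_toLex.2 (Or.inl hxy)
  let f₁ : α ↪o β := OrderEmbedding.ofStrictMono _ (hmono (fun _ => false))
  let f₂ : α ↪o β := OrderEmbedding.ofStrictMono _ (hmono (fun x => decide (x ∉ L)))
  let K : SimpleGraph β := SimpleGraph.comap (fun p : β => (ofLex p).1) H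
  have hf₁ : ∀ x, f₁ x = (toLex (x, false) : β) := fun x => rfl
  have hf₂ : ∀ x, f₂ x = (toLex (x, decide (x ∉ L)) : β) := fun x => rfl
  have hc1 : Cmp f₁ H K W := fun a _ b _ => Iff.rfl
  have hc2 : Cmp f₂ H K W := fun a _ b _ => Iff.rfl
  set X₁ := W.map f₁.toEmbedding with hX₁
  set X₂ := W.map f₂.toEmbedding with hX₂
  have hmem1 : ∀ p : β, p ∈ X₁ ↔ (ofLex p).1 ∈ W ∧ (ofLex p).2 = false := by
    intro p
    rw [hX₁, Finset.mem_map]
    constructor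
    · rintro ⟨x, hx, rfl⟩
      exact ⟨hx, rfl⟩
    · rintro ⟨h1, h2⟩
      refine ⟨(ofLex p).1, h1, ?_⟩
      change (toLex ((ofLex p).1, false) : β) = p
      rw [← h2]
      rfl
  have hmem2 : ∀ p : β, p ∈ X₂ ↔ (ofLex p).1 ∈ W ∧ (ofLex p).2 = decide ((ofLex p).1 ∉ L) := by
    intro p
    rw [hX₂, Finset.mem_map]
    constructor
    · rintro ⟨x, hx, rfl⟩
      exact ⟨hx, rfl⟩
    · rintro ⟨h1, h2⟩
      refine ⟨(ofLex p).1, h1, ?_⟩
      change (toLex ((ofLex p).1, decide ((ofLex p).1 ∉ L)) : β) = p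
      rw [← h2]
      rfl
  have hcL : c ∉ L := not_mem_lk_self
  have hne1 : ∀ p : β, p ∈ X₁ → (p ≠ f₁ c ↔ (ofLex p).1 ≠ c) := by
    intro p hp
    obtain ⟨h1, h2⟩ := (hmem1 p).1 hp
    constructor
    · intro h h'
      apply h
      rw [hf₁, ← h', ← h2]; rfl
    · intro h h'
      apply h
      rw [h']; rfl
  have hne2 : ∀ p : β, p ∈ X₂ → (p ≠ f₂ c ↔ (ofLex p).1 ≠ c) := by
    intro p hp
    obtain ⟨h1, h2⟩ := (hmem2 p).1 hp
    constructor
    · intro h h'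
      apply h
      rw [hf₂, ← h', ← h2]; rfl
    · intro h h'
      apply h
      rw [h']; rfl
  have hint : ∀ p : β, p ∈ X₁.erase (f₁ c) ∩ X₂.erase (f₂ c) ↔
      (ofLex p).1 ∈ L ∧ (ofLex p).2 = false := by
    intro p
    rw [Finset.mem_inter, Finset.mem_erase, Finset.mem_erase]
    constructor
    · rintro ⟨⟨_, h2⟩, h3, h4⟩
      have h5 := (hmem1 p).1 h2
      have h6 := (hmem2 p).1 h4
      refine ⟨?_, h5.2⟩
      rw [h5.2] at h6
      by_contra hcon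
      have h7 := h6.2
      rw [decide_eq_true hcon] at h7
      exact Bool.false_ne_true h7
    · rintro ⟨h1, h2⟩
      have hW : (ofLex p).1 ∈ W := lk_subset h1
      have m1 : p ∈ X₁ := (hmem1 p).2 ⟨hW, h2⟩
      have m2 : p ∈ X₂ := (hmem2 p).2 ⟨hW, by
        rw [h2, eq_comm, decide_eq_false_iff_not]
        exact fun h => h h1⟩
      have hne : (ofLex p).1 ≠ c := fun h => hcL (h ▸ h1)
      exact ⟨⟨(hne1 p m1).2 hne, m1⟩, (hne2 p m2).2 hne, m2⟩
  have hG : GlueData K X₁ X₂ (f₁ c) (f₂ c) := by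
    refine ⟨Finset.mem_map_of_mem _ hc, Finset.mem_map_of_mem _ hc, ?_, ?_⟩
    · ext p
      rw [hint, mem_lk, hmem1]
      change ((_ ∧ _) ∧ H.Adj c (ofLex p).1) ↔ _
      rw [hL, mem_lk]
      tauto
    · ext p
      rw [hint, mem_lk, hmem2]
      change ((_ ∧ _) ∧ H.Adj c (ofLex p).1) ↔ _
      constructor
      · rintro ⟨⟨h1, h2⟩, h3⟩
        have h4 : (ofLex p).1 ∈ L := mem_lk.2 ⟨h1, h3⟩
        refine ⟨h4, ?_⟩
        rw [h2, decide_eq_false_iff_not]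
        exact fun h => h h4
      · rintro ⟨h1, h2⟩
        obtain ⟨h3, h4⟩ := mem_lk.1 h1
        refine ⟨⟨h3, ?_⟩, h4⟩
        rw [h2, eq_comm, decide_eq_false_iff_not]
        exact fun h => h h1
  have n1 : NP K (d + 1) X₁ := NP_map hc1 hS.np
  have n2 : NP K (d + 1) X₂ := NP_map hc2 hS.np
  have m1 : f₁ a ∈ X₁.erase (f₁ c) :=
    Finset.mem_erase.2 ⟨fun e => hca (f₁.injective e).symm, Finset.mem_map_of_mem _ ha⟩
  have m2 : f₁ a ∉ X₂.erase (f₂ c) := by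
    intro hm
    have h1 := ((hint (f₁ a)).1 (Finset.mem_inter.2 ⟨m1, hm⟩)).1
    exact hnc (mem_lk.1 h1).2.symm
  have m3 : f₁ b ∈ X₁.erase (f₁ c) :=
    Finset.mem_erase.2 ⟨fun e => hcb (f₁.injective e), Finset.mem_map_of_mem _ hb⟩
  have hKab : K.Adj (f₁ a) (f₁ b) := hab
  have e1 : lk (glueG K (X₁.erase (f₁ c)) (X₂.erase (f₂ c)))
      (X₁.erase (f₁ c) ∪ X₂.erase (f₂ c)) (f₁ a) = lk K X₁ (f₁ a) := by
    rw [lk_glue_one m1 m2, hG.lk_one m1 m2]
  have hsub : lk K X₁ (f₁ a) ⊆ X₁.erase (f₁ c) := by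
    rw [← hG.lk_one m1 m2]
    exact lk_subset
  have e2 : lk (glueG K (X₁.erase (f₁ c)) (X₂.erase (f₂ c))) (lk K X₁ (f₁ a)) (f₁ b) =
      lk K (lk K X₁ (f₁ a)) (f₁ b) := by
    ext z
    constructor
    · intro hz
      obtain ⟨h1, h2⟩ := mem_lk.1 hz
      exact mem_lk.2 ⟨h1, h2.1⟩
    · intro hz
      obtain ⟨h1, h2⟩ := mem_lk.1 hz
      exact mem_lk.2 ⟨h1, h2, Or.inl ⟨m3, hsub h1⟩⟩
  refine ⟨β, inferInstance, inferInstance, glueG K (X₁.erase (f₁ c)) (X₂.erase (f₂ c)),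
    X₁.erase (f₁ c) ∪ X₂.erase (f₂ c), f₁ a, f₁ b, ⟨glue_np stmDel hG n1 n2, fun i =>
    glue_hs hG n1 n2 (HS_map hc1 (hS.hs i)) (HS_map hc2 (hS.hs i))⟩,
    Finset.mem_union_left _ m1, Finset.mem_union_left _ m3,
    glueG_adj.2 ⟨hKab, Or.inl ⟨m1, m3⟩⟩, ?_, ?_⟩
  · rw [lam, fe_glue_data hG, fe_map hc1, fe_map hc2]
    have h1 : (1 : ℚ) + 2 * (-1 / 2) = 0 := by norm_num
    rw [h1, zero_mul, sub_zero, ← hl, lam]
    ring
  · rw [e1, e2]
    have e3 : lam (glueG K (X₁.erase (f₁ c)) (X₂.erase (f₂ c))) (lk K (lk K X₁ (f₁ a)) (f₁ b)) =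
        lam K (lk K (lk K X₁ (f₁ a)) (f₁ b)) := by
      refine (lam_congr fun y hy z hz => ?_).symm
      rw [glueG_adj]
      exact ⟨fun h => ⟨h, Or.inl ⟨hsub (lk_subset hy), hsub (lk_subset hz)⟩⟩, fun h => h.1⟩
    rw [e3, hX₁, lk_map hc1 (Finset.Subset.refl _) ha, lk_map hc1 lk_subset hb,
      lam_map (hc1.mono (lk_subset.trans lk_subset)), hq]

theorem Ev.double_iter {d : ℕ} {l q : ℚ} (h : Ev k (d + 1) l q) (N : ℕ) :
    Ev k (d + 1) (2 ^ N * l) q := by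
  induction N with
  | zero => simpa using h
  | succ N ih =>
    rw [pow_succ', mul_assoc]
    exact ih.double

/-- the construction -/
theorem Ev.build {n : ℕ} {l q : ℚ} (h : Ev k (2 * (n + 1)) l q) (j : ℕ) :
    ∃ v, Rz k (2 * (n + 1)) (l - 1 / 4 * q + j * (-1 / 4) ^ (n + 1)) v := by
  obtain ⟨α, _, _, H, W, a, b, hS, ha, hb, hab, hl, hq⟩ := h
  let M := 1 + 3 * n + j
  let f : α ↪o (α ⊕ₗ Fin M) :=
    OrderEmbedding.ofStrictMono _ (Sum.Lex.inl_strictMono (α := α) (β := Fin M))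
  let K : SimpleGraph (α ⊕ₗ Fin M) := joinG H ⊥
  have c1 : Cmp f H K W := fun a _ b _ => Iff.rfl
  have hS' : Sp k K (2 * (n + 1)) (W.map f.toEmbedding) :=
    ⟨NP_map c1 hS.np, fun i => HS_map c1 (hS.hs i)⟩
  have hcard : Fintype.card (α ⊕ₗ Fin M) = Fintype.card α + M := by
    have h1 : Fintype.card (α ⊕ₗ Fin M) = Fintype.card (α ⊕ Fin M) :=
      Fintype.card_congr ofLex
    rw [h1, Fintype.card_sum, Fintype.card_fin]
  have hW : (W.map f.toEmbedding).card + (1 + 3 * n + j) ≤ Fintype.card (α ⊕ₗ Fin M) := by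
    rw [hcard, Finset.card_map]
    exact Nat.add_le_add_right (Finset.card_le_univ W) _
  obtain ⟨H', W', g1, g2, g3⟩ := VD.build (k := k) j hS' (Finset.mem_map_of_mem _ ha)
    (Finset.mem_map_of_mem _ hb) ((c1 a ha b hb).1 hab) hW
  refine ⟨W'.card, α ⊕ₗ Fin M, inferInstance, inferInstance, H', W', g1, ?_, le_rfl⟩
  have e1 : lk K (lk K (W.map f.toEmbedding) (f.toEmbedding a)) (f.toEmbedding b) =
      (lk H (lk H W a) b).map f.toEmbedding := by
    rw [← lk_map c1 lk_subset hb, ← lk_map c1 (Finset.Subset.refl _) ha]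
    rfl
  rw [g3, e1, lam_map c1, lam_map (c1.mono (lk_subset.trans lk_subset)), hl, hq]

theorem Rz.fin' {d : ℕ} {l : ℚ} {v : ℕ} (h : Rz k d l v) :
    ∃ (n : ℕ) (T : Finset (Finset (Fin n))), (∀ i, IsFlagSphere (k i) d T) ∧ omega T = l := by
  obtain ⟨α, _, _, H, W, hS, hl, hv⟩ := h
  let e : Fin (Fintype.card α) ≃o α := Fintype.orderIsoFinOfCardEq α rfl
  let f : α ↪o Fin (Fintype.card α) := e.symm.toOrderEmbedding
  let K : SimpleGraph (Fin (Fintype.card α)) := SimpleGraph.comap (fun i => e i) H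
  have hc : Cmp f H K W := by
    intro a _ b _
    change H.Adj a b ↔ H.Adj (e (e.symm a)) (e (e.symm b))
    rw [OrderIso.apply_symm_apply, OrderIso.apply_symm_apply]
  exact ⟨_, cl K (W.map f.toEmbedding), fun i => isFlagSphere_of (NP_map hc hS.np)
    (HS_map hc (hS.hs i)), by rw [omega_cl, lam_map hc, hl]⟩

/-- every sphere of rank at least two has an edge -/
theorem exists_edge {α : Type} [LinearOrder α] [Fintype α] {H : SimpleGraph α} {W : Finset α}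
    {d : ℕ} (hN : NP H (d + 2) W) : ∃ a b, a ∈ W ∧ b ∈ lk H W a := by
  obtain ⟨a, ha⟩ := NP.nonempty (d := d + 1) hN
  have h1 : NP H (d + 1) (lk H W a) := NP.lk (d := d + 1) hN ha
  obtain ⟨b, hb⟩ := h1.nonempty
  exact ⟨a, b, ha, hb⟩

/-- `z` is a value: the quantity `(-1)^m ω` is `z / 4^m` for a flag sphere of dimension `2m-1` -/
def Val (k : ι → Type) [∀ i, Field (k i)] (m : ℕ) (z : ℤ) : Prop :=
  ∃ (N : ℕ) (S : Finset (Finset (Fin N))), (∀ i, IsFlagSphere (k i) (2 * m) S) ∧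
    (-1) ^ m * omega S = z / 4 ^ m

theorem val_of_rz {m : ℕ} {z : ℤ} {v : ℕ} (h : Rz k (2 * m) (z * (-1 / 4) ^ m) v) : Val k m z := by
  obtain ⟨n, T, h1, h2⟩ := Rz.fin' h
  refine ⟨n, T, h1, ?_⟩
  rw [h2]
  have e1 : (-1 : ℚ) ^ m * (z * (-1 / 4) ^ m) = z * ((-1) * (-1 / 4)) ^ m := by
    rw [mul_pow]; ring
  have e2 : ((-1 : ℚ) * (-1 / 4)) = 1 / 4 := by norm_num
  rw [e1, e2, div_pow, one_pow]
  ring

theorem of_val_eq {m : ℕ} {z : ℤ} {l : ℚ} (h : (-1) ^ m * l = (z : ℚ) / 4 ^ m) :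
    l = z * (-1 / 4) ^ m := by
  have h1 : (-1 : ℚ) ^ m * (-1) ^ m = 1 := by
    rw [← mul_pow]; norm_num
  calc l = ((-1 : ℚ) ^ m * (-1) ^ m) * l := by rw [h1, one_mul]
    _ = (-1) ^ m * ((-1) ^ m * l) := by ring
    _ = (-1) ^ m * (z / 4 ^ m) := by rw [h]
    _ = z * ((-1) ^ m / 4 ^ m) := by ring
    _ = z * (-1 / 4) ^ m := by rw [div_pow]

/-- the values are integers over `4 ^ m` -/
theorem exists_val [Nonempty ι] {m N : ℕ} {S : Finset (Finset (Fin N))}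
    (h : ∀ i, IsFlagSphere (k i) (2 * m) S) : ∃ z : ℤ, (-1) ^ m * omega S = z / 4 ^ m := by
  obtain ⟨i₀⟩ := ‹Nonempty ι›
  rw [(h i₀).omega_eq]
  exact exists_int (h i₀).np (h i₀).eul

/-- a sphere with a value has an edge whose link has an integral value -/
theorem exists_ev [Nonempty ι] {n : ℕ} {z : ℤ} (h : Val k (n + 1) z) :
    ∃ w : ℤ, Ev k (2 * (n + 1)) (z * (-1 / 4) ^ (n + 1)) (w * (-1 / 4) ^ n) := by
  obtain ⟨N, S, hS, hz⟩ := h
  obtain ⟨i₀⟩ := ‹Nonempty ι›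
  have hN : NP (skel S) (2 * n + 1 + 1) (vert S) := (hS i₀).np
  have hE : Eul (skel S) (2 * n + 1 + 1) (vert S) := (hS i₀).eul
  obtain ⟨a, b, ha, hb⟩ := exists_edge hN
  obtain ⟨w, hw⟩ := exists_int (m := n) ((hN.lk ha).lk hb) ((hE.lk_succ ha).lk_succ hb)
  refine ⟨w, Fin N, inferInstance, inferInstance, skel S, vert S, a, b,
    ⟨(hS i₀).np, fun i => ?_⟩, ha, lk_subset hb, (mem_lk.1 hb).2, ?_, of_val_eq hw⟩
  · obtain ⟨r, hr⟩ := hS i
    exact Pool.Agent.W216.FS.HR.main Pool.Agent.W216.FS.BB.main (k i) N _ S r hr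
  · rw [← (hS i₀).omega_eq]
    exact of_val_eq hz

/-- a negative value gives all the values -/
theorem val_all [Nonempty ι] {n : ℕ} {z : ℤ} (hz : z < 0) (h : Val k (n + 1) z) (y : ℤ) :
    Val k (n + 1) y := by
  obtain ⟨w, hw⟩ := exists_ev h
  have hev : ∀ N : ℕ, Ev k (2 * (n + 1)) (2 ^ N * (z * (-1 / 4) ^ (n + 1))) (w * (-1 / 4) ^ n) :=
    fun N => Ev.double_iter (d := 2 * n + 1) hw N
  set N := (w - y).toNat with hN
  have h1 : w - y ≤ N := Int.self_le_toNat _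
  have h2 : (N : ℤ) < 2 ^ N := by exact_mod_cast Nat.lt_two_pow_self
  have h3 : (2 : ℤ) ^ N * z ≤ -2 ^ N := by
    have : (0 : ℤ) < 2 ^ N := by positivity
    nlinarith
  obtain ⟨j, hj⟩ := Int.eq_ofNat_of_zero_le (show (0 : ℤ) ≤ y - w - 2 ^ N * z by linarith)
  obtain ⟨v, hv⟩ := (hev N).build j
  apply val_of_rz (v := v)
  have e1 : (y : ℚ) * (-1 / 4) ^ (n + 1) =
      2 ^ N * (z * (-1 / 4) ^ (n + 1)) - 1 / 4 * (w * (-1 / 4) ^ n) + j * (-1 / 4) ^ (n + 1) := by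
    have e2 : (j : ℚ) = y - w - 2 ^ N * z := by
      have : ((j : ℤ) : ℚ) = ((y - w - 2 ^ N * z : ℤ) : ℚ) := by rw [hj]
      push_cast at this
      exact_mod_cast this
    rw [e2, pow_succ]
    ring
  rw [e1]
  exact hv

/-! ### The nonnegative values -/

theorem Rz_pair : Rz k 1 0 2 :=
  ⟨Fin 2, inferInstance, inferInstance, ⊥, {0, 1}, Sp_pair, lam_pair (by decide) (fun h => h),
    by decide⟩

/-- an edge of a join -/
theorem Ev.join {d e : ℕ} {l l' q : ℚ} {v : ℕ} (h : Ev k d l q) (h' : Rz k e l' v) :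
    Ev k (d + e) (l * l') (q * l') := by
  obtain ⟨α, _, _, H, W, a, b, hS, ha, hb, hab, hl, hq⟩ := h
  obtain ⟨β, _, _, K, V, hS', hl', hv'⟩ := h'
  obtain ⟨f, g, c1, c2, hfull, hSp⟩ := join_exists hS hS'
  set J := joinG H K
  have hfa : f a ∈ W.map f.toEmbedding := Finset.mem_map_of_mem _ ha
  have hfb : f b ∈ W.map f.toEmbedding := Finset.mem_map_of_mem _ hb
  refine ⟨α ⊕ₗ β, inferInstance, inferInstance, J, W.map f.toEmbedding ∪ V.map g.toEmbedding,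
    f a, f b, hSp, Finset.mem_union_left _ hfa, Finset.mem_union_left _ hfb,
    (c1 a ha b hb).1 hab, ?_, ?_⟩
  · rw [lam_join hfull, lam_map c1, lam_map c2, hl, hl']
  · have e1 : lk J (lk J (W.map f.toEmbedding ∪ V.map g.toEmbedding) (f a)) (f b) =
        (lk H (lk H W a) b).map f.toEmbedding ∪ V.map g.toEmbedding := by
      rw [← lk_map c1 lk_subset hb, ← lk_map c1 (Finset.Subset.refl _) ha]
      ext z
      simp only [mem_lk, Finset.mem_union]
      constructor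
      · rintro ⟨⟨h1 | h1, h2⟩, h3⟩
        · exact Or.inl ⟨⟨h1, h2⟩, h3⟩
        · exact Or.inr h1
      · rintro (⟨⟨h1, h2⟩, h3⟩ | h1)
        · exact ⟨⟨Or.inl h1, h2⟩, h3⟩
        · exact ⟨⟨Or.inr h1, hfull _ hfa z h1⟩, hfull _ hfb z h1⟩
    have hfull' : Full J ((lk H (lk H W a) b).map f.toEmbedding) (V.map g.toEmbedding) :=
      fun x hx y hy => hfull x (Finset.map_subset_map.2 (lk_subset.trans lk_subset) hx) y hy
    rw [e1, lam_join hfull', lam_map (c1.mono (lk_subset.trans lk_subset)), lam_map c2, hq, hl']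

theorem Rz.ev_two {l : ℚ} {v : ℕ} (h : Rz k 2 l v) : Ev k 2 l 1 := by
  obtain ⟨α, _, _, H, W, hS, hl, hv⟩ := h
  obtain ⟨a, b, ha, hb⟩ := exists_edge (d := 0) hS.np
  have hN : NP H (0 + 1 + 1) W := hS.np
  have h0 : lk H (lk H W a) b = ∅ := (hN.lk ha).lk hb
  refine ⟨α, inferInstance, inferInstance, H, W, a, b, hS, ha, lk_subset hb, (mem_lk.1 hb).2, hl,
    ?_⟩
  rw [h0, lam_empty]

/-- a sphere with value zero and an edge with value one -/
theorem Ev_zero (n : ℕ) : Ev k (2 * (n + 1)) 0 (1 * (-1 / 4) ^ n) := by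
  have h := (Rz.ev_two (Rz_pair (k := k).join (Rz_pair (k := k)))).join ((Rz_pent (k := k)).pow n)
  have e1 : 1 + 1 + n * 2 = 2 * (n + 1) := by ring
  have e2 : (0 : ℚ) * 0 * (-1 / 4) ^ n = 0 := by ring
  rw [e2] at h
  rw [← e1]
  exact h

theorem val_nonneg {n : ℕ} {z : ℤ} (hz : 0 ≤ z) : Val k (n + 1) z := by
  have h := Ev_zero (k := k) n
  obtain ⟨j, rfl⟩ := Int.eq_ofNat_of_zero_le hz
  rcases j with _ | j
  · obtain ⟨α, i1, i2, H, W, a, b, hS, ha, hb, hab, hl, hq⟩ := h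
    exact val_of_rz (v := W.card) ⟨α, i1, i2, H, W, hS, by rw [hl]; simp, le_rfl⟩
  · obtain ⟨v, hv⟩ := h.build j
    apply val_of_rz (v := v)
    have e1 : (((j + 1 : ℕ) : ℤ) : ℚ) * (-1 / 4) ^ (n + 1) =
        0 - 1 / 4 * (1 * (-1 / 4) ^ n) + j * (-1 / 4) ^ (n + 1) := by
      push_cast
      rw [pow_succ]
      ring
    rw [e1]
    exact hv

/-- **the dichotomy** -/
theorem dichotomy [Nonempty ι] {m : ℕ} (hm : 1 ≤ m) :
    (∀ z, Val k m z ↔ 0 ≤ z) ∨ ∀ z, Val k m z := by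
  obtain ⟨n, rfl⟩ : ∃ n, m = n + 1 := ⟨m - 1, by omega⟩
  by_cases h : ∃ z, z < 0 ∧ Val k (n + 1) z
  · obtain ⟨z, hz, hv⟩ := h
    exact Or.inr (val_all hz hv)
  · push Not at h
    refine Or.inl fun z => ⟨fun hv => ?_, val_nonneg⟩
    by_contra hz
    exact h z (by omega) hv

/-- negative values in the next odd dimension -/
theorem val_succ [Nonempty ι] {m : ℕ} {z : ℤ} (h : Val k m z) : Val k (m + 1) z := by
  obtain ⟨N, S, hS, hz⟩ := h
  have h1 := (rz_of hS).join (Rz_pent (k := k))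
  rw [of_val_eq hz] at h1
  refine val_of_rz (v := numVert S + 5) ?_
  rw [pow_succ, ← mul_assoc]
  exact h1

theorem val_all_mono [Nonempty ι] {m m' : ℕ} (hmm : m ≤ m') (h : ∀ z, Val k m z) :
    ∀ z, Val k m' z := by
  induction m', hmm using Nat.le_induction with
  | base => exact h
  | succ m' _ ih => exact fun z => val_succ (ih z)

theorem cdi_iff [Nonempty ι] {m : ℕ} (hm : 1 ≤ m) : CDI k m ↔ ¬ Val k m (-1) := by
  constructor
  · rintro h ⟨N, S, hS, hz⟩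
    have h1 := h N S hS
    rw [hz] at h1
    have h2 : (0 : ℚ) < 4 ^ m := by positivity
    rw [div_nonneg_iff] at h1
    rcases h1 with h1 | h1
    · norm_num at h1
    · exact absurd h1.2 (not_le.2 h2)
  · intro h N S hS
    obtain ⟨z, hz⟩ := exists_val hS
    rw [hz]
    have hz0 : 0 ≤ z := by
      rcases dichotomy (k := k) hm with h1 | h1
      · exact (h1 z).1 ⟨N, S, hS, hz⟩
      · exact absurd (h1 (-1)) h
    exact div_nonneg (by exact_mod_cast hz0) (by positivity)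

end Pool.Agent.D0H29.VD
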