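import Pool.Agent.D0H29.VD.Sd

set_option autoImplicit false
set_option linter.unusedSectionVars false
set_option linter.unusedVariables false

/-! # Subdivisions of edges with suspended links -/

namespace Pool.Agent.D0H29.VD

open Pool.Agent.W497.FS Pool.Agent.D0H80.CD

variable {α : Type} [LinearOrder α] [Fintype α] {H H' : SimpleGraph α} {W L R : Finset α}
  {a b x p q t u v : α}

theorem exists_fresh (h : W.card < Fintype.card α) : ∃ x, x ∉ W := by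
  by_contra hc
  push Not at hc
  have : W = Finset.univ := Finset.eq_univ_iff_forall.2 hc
  rw [this, Finset.card_univ] at h
  exact lt_irrefl _ h

/-- suspensions -/
theorem lam_susp (hu : u ∈ L) (hv : v ∈ L) (huv : u ≠ v) (hn : ¬ H.Adj u v)
    (hadj : ∀ z ∈ L, z ≠ u → z ≠ v → H.Adj u z ∧ H.Adj v z) : lam H L = 0 := by
  have e1 : {u, v} ∪ (L \ {u, v}) = L := by
    rw [Finset.union_sdiff_of_subset]
    intro z hz
    rcases Finset.mem_insert.1 hz with hz | hz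
    · rw [hz]; exact hu
    · rw [Finset.mem_singleton.1 hz]; exact hv
  have hf : Full H {u, v} (L \ {u, v}) := by
    intro w hw z hz
    obtain ⟨h1, h2⟩ := Finset.mem_sdiff.1 hz
    have hzp : z ≠ u := fun e => h2 (by rw [e]; exact Finset.mem_insert_self _ _)
    have hzq : z ≠ v := fun e => h2 (by
      rw [e]; exact Finset.mem_insert_of_mem (Finset.mem_singleton_self _))
    obtain ⟨h6, h7⟩ := hadj z h1 hzp hzq
    rcases Finset.mem_insert.1 hw with hw | hw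
    · rw [hw]; exact h6
    · rw [Finset.mem_singleton.1 hw]; exact h7
  rw [← e1, lam_join hf, lam_pair huv hn, zero_mul]

theorem IsSd.adj_of_ne (h : IsSd H H' W a b x) {y z : α} (hy : y ∈ W) (hz : z ∈ W) (hya : y ≠ a)
    (hza : z ≠ a) : H'.Adj y z ↔ H.Adj y z := by
  rw [h.h1 y hy z hz]
  exact ⟨fun hc => hc.1, fun hc => ⟨hc, fun e => hya e.1, fun e => hza e.2⟩⟩

/-- the link of a face with both `a` and `b` in its link -/
theorem IsSd.lkF_old (h : IsSd H H' W a b x) {G : Finset α} (hG : G ⊆ W)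
    (ha : ∀ g ∈ G, H.Adj g a) (hb : ∀ g ∈ G, H.Adj g b) :
    lkF H' (insert x W) G = insert x (lkF H W G) := by
  ext z
  simp only [mem_lkF, Finset.mem_insert]
  constructor
  · rintro ⟨h3 | h3, h4⟩
    · exact Or.inl h3
    · exact Or.inr ⟨h3, fun g hg => ((h.h1 g (hG hg) z h3).1 (h4 g hg)).1⟩
  · rintro (h3 | ⟨h3, h4⟩)
    · rw [h3]
      exact ⟨Or.inl rfl, fun g hg => ((h.h2 g (hG hg)).2
        (Or.inr (Or.inr ⟨(ha g hg).symm, (hb g hg).symm⟩))).symm⟩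
    · exact ⟨Or.inr h3, fun g hg => (h.h1 g (hG hg) z h3).2
        ⟨h4 g hg, fun e => (ha g hg).ne e.1, fun e => (hb g hg).ne e.1⟩⟩

/-- the link of `t` is a suspension with the poles `p` and `q` -/
structure Sus (H : SimpleGraph α) (W : Finset α) (p q t : α) : Prop where
  ht : t ∈ W
  hp : p ∈ W
  hq : q ∈ W
  hpq : p ≠ q
  hn : ¬ H.Adj p q
  tp : H.Adj t p
  tq : H.Adj t q
  adj : ∀ y ∈ W, H.Adj t y → y ≠ p → y ≠ q → H.Adj p y ∧ H.Adj q y

theorem Sus.lam_zero (h : Sus H W p q t) {y : α} (hy : y ∈ W) (hty : H.Adj t y) (hyp : y ≠ p)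
    (hyq : y ≠ q) : lam H (lk H (lk H W t) y) = 0 := by
  obtain ⟨hpy, hqy⟩ := h.adj y hy hty hyp hyq
  refine lam_susp (u := p) (v := q) (IsSd.mem_lab.2 ⟨h.hp, h.tp, hpy.symm⟩)
    (IsSd.mem_lab.2 ⟨h.hq, h.tq, hqy.symm⟩) h.hpq h.hn ?_
  intro z hz hzp hzq
  obtain ⟨h3, h4, h5⟩ := IsSd.mem_lab.1 hz
  exact h.adj z h3 h4 hzp hzq

/-- the subdivision of an edge `ab`, where the link of `a` is a suspension and `b` is not a pole -/
structure SdS (H H' : SimpleGraph α) (W : Finset α) (p q a b x : α) : Prop where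
  sd : IsSd H H' W a b x
  sus : Sus H W p q a
  bp : b ≠ p
  bq : b ≠ q

theorem SdS.pb (h : SdS H H' W p q a b x) : H.Adj p b ∧ H.Adj q b :=
  h.sus.adj b h.sd.hb h.sd.hab h.bp h.bq

theorem SdS.padj (h : SdS H H' W p q a b x) {y : α} (hy : y ∈ W) (hpy : H.Adj p y) :
    H'.Adj p y :=
  (h.sd.h1 p h.sus.hp y hy).2 ⟨hpy, fun e => h.sus.tp.ne e.1.symm, fun e => h.bp e.1.symm⟩

theorem SdS.qadj (h : SdS H H' W p q a b x) {y : α} (hy : y ∈ W) (hqy : H.Adj q y) :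
    H'.Adj q y :=
  (h.sd.h1 q h.sus.hq y hy).2 ⟨hqy, fun e => h.sus.tq.ne e.1.symm, fun e => h.bq e.1.symm⟩

theorem SdS.px (h : SdS H H' W p q a b x) : H'.Adj p x :=
  ((h.sd.h2 p h.sus.hp).2 (Or.inr (Or.inr ⟨h.sus.tp, h.pb.1.symm⟩))).symm

theorem SdS.qx (h : SdS H H' W p q a b x) : H'.Adj q x :=
  ((h.sd.h2 q h.sus.hq).2 (Or.inr (Or.inr ⟨h.sus.tq, h.pb.2.symm⟩))).symm

theorem SdS.npq (h : SdS H H' W p q a b x) : ¬ H'.Adj p q := fun hc =>
  h.sus.hn ((h.sd.h1 p h.sus.hp q h.sus.hq).1 hc).1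

theorem SdS.old (h : SdS H H' W p q a b x) (hs : Sus H W p q t) :
    Sus H' (insert x W) p q t where
  ht := Finset.mem_insert_of_mem hs.ht
  hp := Finset.mem_insert_of_mem hs.hp
  hq := Finset.mem_insert_of_mem hs.hq
  hpq := hs.hpq
  hn := h.npq
  tp := (h.padj hs.ht hs.tp.symm).symm
  tq := (h.qadj hs.ht hs.tq.symm).symm
  adj := by
    intro y hy hty hyp hyq
    rcases Finset.mem_insert.1 hy with hy | hy
    · rw [hy]; exact ⟨h.px, h.qx⟩
    · have h3 := ((h.sd.h1 t hs.ht y hy).1 hty).1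
      obtain ⟨h4, h5⟩ := hs.adj y hy h3 hyp hyq
      exact ⟨h.padj hy h4, h.qadj hy h5⟩

theorem SdS.new (h : SdS H H' W p q a b x) : Sus H' (insert x W) p q x where
  ht := Finset.mem_insert_self _ _
  hp := Finset.mem_insert_of_mem h.sus.hp
  hq := Finset.mem_insert_of_mem h.sus.hq
  hpq := h.sus.hpq
  hn := h.npq
  tp := h.px.symm
  tq := h.qx.symm
  adj := by
    intro y hy hxy hyp hyq
    rcases Finset.mem_insert.1 hy with hy | hy
    · exact absurd hy.symm hxy.ne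
    · rcases (h.sd.h2 y hy).1 hxy with h3 | h3 | h3
      · rw [h3]
        exact ⟨h.padj h.sus.ht h.sus.tp.symm, h.qadj h.sus.ht h.sus.tq.symm⟩
      · rw [h3]
        exact ⟨h.padj h.sd.hb h.pb.1, h.qadj h.sd.hb h.pb.2⟩
      · obtain ⟨h4, h5⟩ := h.sus.adj y hy h3.1 hyp hyq
        exact ⟨h.padj hy h4, h.qadj hy h5⟩

theorem SdS.lam (h : SdS H H' W p q a b x) : lam H' (insert x W) = lam H W := by
  rw [h.sd.lam_eq, h.sus.lam_zero h.sd.hb h.sd.hab h.bp h.bq, mul_zero, sub_zero]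

variable {ι : Type} {k : ι → Type} [∀ i, Field (k i)] {d : ℕ}

theorem IsSd.sp (h : IsSd H H' W a b x) (hS : Sp k H d W) : Sp k H' d (insert x W) :=
  ⟨h.np hS.np, fun i => h.hs hS.np (hS.hs i)⟩

/-- the state of the construction: a sphere, a vertex `t` whose link is a suspension with poles `p`,
`q`, and a face `R` in the link of `t` with the vertex `p` -/
structure St (k : ι → Type) [∀ i, Field (k i)] (H : SimpleGraph α) (W : Finset α) (d : ℕ)
    (p q t : α) (R : Finset α) : Prop where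
  sp : Sp k H d W
  sus : Sus H W p q t
  sub : R ⊆ W
  tR : ∀ r ∈ R, H.Adj t r
  cR : ∀ r ∈ R, ∀ s ∈ R, r ≠ s → H.Adj r s
  pR : p ∈ R

theorem St.step (h : St k H W d p q t R) (hR : 3 ≤ R.card) (hW : W.card + 3 ≤ Fintype.card α) :
    ∃ (H' : SimpleGraph α) (W' : Finset α) (t' : α) (R' : Finset α), St k H' W' d p q t' R' ∧
      lam H' W' = lam H W ∧ W'.card = W.card + 3 ∧ R'.card + 2 = R.card ∧
      lam H' (lkF H' W' (insert t' R')) = -1 / 4 * lam H (lkF H W (insert t R)) := by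
  -- the vertices `y`, `y'`
  have hc1 : 1 < (R.erase p).card := by
    rw [Finset.card_erase_of_mem h.pR]; omega
  obtain ⟨y, hy, y', hy', hyy⟩ := Finset.one_lt_card.1 hc1
  obtain ⟨hyp, hyR⟩ := Finset.mem_erase.1 hy
  obtain ⟨hyp', hyR'⟩ := Finset.mem_erase.1 hy'
  have hqR : q ∉ R := fun hc => h.sus.hn (h.cR p h.pR q hc h.sus.hpq)
  have hyq : y ≠ q := fun e => hqR (by rw [← e]; exact hyR)
  have hyq' : y' ≠ q := fun e => hqR (by rw [← e]; exact hyR')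
  have hyW := h.sub hyR
  have hyW' := h.sub hyR'
  have hty := h.tR y hyR
  have hty' := h.tR y' hyR'
  have htW := h.sus.ht
  -- first subdivision
  obtain ⟨x₁, hx₁⟩ := exists_fresh (W := W) (by omega)
  obtain ⟨H₁, s1⟩ : ∃ H₁, SdS H H₁ W p q t y x₁ :=
    ⟨_, isSd_sdG htW hyW hty hx₁, h.sus, hyp, hyq⟩
  have mW₁ : ∀ {z : α}, z ∈ W → z ∈ insert x₁ W := fun hz => Finset.mem_insert_of_mem hz
  have hc₁ : (insert x₁ W).card = W.card + 1 := Finset.card_insert_of_notMem hx₁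
  have neW₁ : ∀ {z : α}, z ∈ W → z ≠ x₁ := fun hz e => hx₁ (e ▸ hz)
  have a1 : H₁.Adj x₁ y' := (s1.sd.h2 y' hyW').2 (Or.inr (Or.inr ⟨hty', h.cR y hyR y' hyR' hyy⟩))
  have hx₁p : x₁ ≠ p := (neW₁ h.sus.hp).symm
  have hx₁q : x₁ ≠ q := (neW₁ h.sus.hq).symm
  -- second subdivision
  obtain ⟨x₂, hx₂⟩ := exists_fresh (W := insert x₁ W) (by omega)
  obtain ⟨H₂, s2⟩ : ∃ H₂, SdS H₁ H₂ (insert x₁ W) p q x₁ y' x₂ :=
    ⟨_, isSd_sdG (Finset.mem_insert_self _ _) (mW₁ hyW') a1 hx₂, s1.new, hyp', hyq'⟩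
  have hc₂ : (insert x₂ (insert x₁ W)).card = W.card + 2 := by
    rw [Finset.card_insert_of_notMem hx₂, hc₁]
  have neW₂ : ∀ {z : α}, z ∈ insert x₁ W → z ≠ x₂ := fun hz e => hx₂ (e ▸ hz)
  have b1 : H₁.Adj x₁ t := (s1.sd.h2 t htW).2 (Or.inl rfl)
  have a2 : H₂.Adj t x₁ := (s2.sd.h1 t (mW₁ htW) x₁ (Finset.mem_insert_self _ _)).2
    ⟨b1.symm, fun e => neW₁ htW e.1, fun e => hty'.ne e.1⟩
  -- third subdivision
  obtain ⟨x₃, hx₃⟩ := exists_fresh (W := insert x₂ (insert x₁ W)) (by omega)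
  have m₂ : ∀ {z : α}, z ∈ insert x₁ W → z ∈ insert x₂ (insert x₁ W) :=
    fun hz => Finset.mem_insert_of_mem hz
  obtain ⟨H₃, s3⟩ : ∃ H₃, SdS H₂ H₃ (insert x₂ (insert x₁ W)) p q t x₁ x₃ :=
    ⟨_, isSd_sdG (m₂ (mW₁ htW)) (m₂ (Finset.mem_insert_self _ _)) a2 hx₃,
      s2.old (s1.old h.sus), hx₁p, hx₁q⟩
  have m₃ : ∀ {z : α}, z ∈ insert x₂ (insert x₁ W) → z ∈ insert x₃ (insert x₂ (insert x₁ W)) :=
    fun hz => Finset.mem_insert_of_mem hz
  -- the rest of the face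
  have hR' : ∀ r, r ∈ (R.erase y).erase y' ↔ r ∈ R ∧ r ≠ y ∧ r ≠ y' := by
    intro r
    rw [Finset.mem_erase, Finset.mem_erase]
    tauto
  -- adjacencies of the members `r` of the rest
  have r0t : ∀ r ∈ R, r ≠ t := fun r hr => (h.tR r hr).ne.symm
  have r1x1 : ∀ r ∈ R, r ≠ y → H₁.Adj x₁ r := fun r hr hry =>
    (s1.sd.h2 r (h.sub hr)).2 (Or.inr (Or.inr ⟨h.tR r hr, h.cR y hyR r hr (Ne.symm hry)⟩))
  have r1y' : ∀ r ∈ R, r ≠ y' → H₁.Adj y' r := fun r hr hry =>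
    (s1.sd.adj_of_ne hyW' (h.sub hr) (r0t y' hyR') (r0t r hr)).2 (h.cR y' hyR' r hr (Ne.symm hry))
  have r2x2 : ∀ r ∈ R, r ≠ y → r ≠ y' → H₂.Adj x₂ r := fun r hr h1 h2 =>
    (s2.sd.h2 r (mW₁ (h.sub hr))).2 (Or.inr (Or.inr ⟨r1x1 r hr h1, r1y' r hr h2⟩))
  have hx₂t : x₂ ≠ t := (neW₂ (mW₁ htW)).symm
  have hx₂x₁ : x₂ ≠ x₁ := (neW₂ (Finset.mem_insert_self _ _)).symm
  have mx₂ : x₂ ∈ insert x₂ (insert x₁ W) := Finset.mem_insert_self _ _
  have mx₁ : x₁ ∈ insert x₁ W := Finset.mem_insert_self _ _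
  have r2r : ∀ r ∈ R, ∀ s ∈ R, r ≠ s → H₂.Adj r s := fun r hr s hs hrs =>
    (s2.sd.adj_of_ne (mW₁ (h.sub hr)) (mW₁ (h.sub hs)) (neW₁ (h.sub hr)) (neW₁ (h.sub hs))).2
      ((s1.sd.adj_of_ne (h.sub hr) (h.sub hs) (r0t r hr) (r0t s hs)).2 (h.cR r hr s hs hrs))
  have r1t : ∀ r ∈ R, r ≠ y → H₁.Adj r t := fun r hr hry =>
    (s1.sd.h1 r (h.sub hr) t htW).2 ⟨(h.tR r hr).symm, fun e => r0t r hr e.1, fun e => hry e.1⟩
  have r2t : ∀ r ∈ R, r ≠ y → H₂.Adj r t := fun r hr hry =>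
    (s2.sd.adj_of_ne (mW₁ (h.sub hr)) (mW₁ htW) (neW₁ (h.sub hr)) (neW₁ htW)).2 (r1t r hr hry)
  have r2x1 : ∀ r ∈ R, r ≠ y → r ≠ y' → H₂.Adj r x₁ := fun r hr h1 h2 =>
    (s2.sd.h1 r (mW₁ (h.sub hr)) x₁ mx₁).2 ⟨(r1x1 r hr h1).symm, fun e => neW₁ (h.sub hr) e.1,
      fun e => h2 e.1⟩
  have x2t : H₂.Adj x₂ t := (s2.sd.h2 t (mW₁ htW)).2 (Or.inr (Or.inr ⟨b1, r1t y' hyR' hyy.symm⟩))
  have x2x1 : H₂.Adj x₂ x₁ := (s2.sd.h2 x₁ mx₁).2 (Or.inl rfl)
  have hsubG : insert x₂ ((R.erase y).erase y') ⊆ insert x₂ (insert x₁ W) := by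
    intro z hz
    rcases Finset.mem_insert.1 hz with hz | hz
    · rw [hz]; exact mx₂
    · exact m₂ (mW₁ (h.sub ((hR' z).1 hz).1))
  have hGt : ∀ g ∈ insert x₂ ((R.erase y).erase y'), H₂.Adj g t := by
    intro g hg
    rcases Finset.mem_insert.1 hg with hg | hg
    · rw [hg]; exact x2t
    · obtain ⟨h1, h2, h3⟩ := (hR' g).1 hg
      exact r2t g h1 h2
  have hGx : ∀ g ∈ insert x₂ ((R.erase y).erase y'), H₂.Adj g x₁ := by
    intro g hg
    rcases Finset.mem_insert.1 hg with hg | hg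
    · rw [hg]; exact x2x1
    · obtain ⟨h1, h2, h3⟩ := (hR' g).1 hg
      exact r2x1 g h1 h2 h3
  refine ⟨H₃, insert x₃ (insert x₂ (insert x₁ W)), x₂, (R.erase y).erase y', ?_, ?_, ?_, ?_, ?_⟩
  · refine ⟨s3.sd.sp (s2.sd.sp (s1.sd.sp h.sp)), s3.old s2.new, ?_, ?_, ?_, ?_⟩
    · intro r hr
      exact m₃ (m₂ (mW₁ (h.sub ((hR' r).1 hr).1)))
    · intro r hr
      obtain ⟨h1, h2, h3⟩ := (hR' r).1 hr
      exact (s3.sd.adj_of_ne mx₂ (m₂ (mW₁ (h.sub h1))) hx₂t (r0t r h1)).2 (r2x2 r h1 h2 h3)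
    · intro r hr s hs hrs
      obtain ⟨h1, -⟩ := (hR' r).1 hr
      obtain ⟨h1', -⟩ := (hR' s).1 hs
      exact (s3.sd.adj_of_ne (m₂ (mW₁ (h.sub h1))) (m₂ (mW₁ (h.sub h1'))) (r0t r h1)
        (r0t s h1')).2 (r2r r h1 s h1' hrs)
    · exact (hR' p).2 ⟨h.pR, hyp.symm, hyp'.symm⟩
  · rw [s3.lam, s2.lam, s1.lam]
  · rw [Finset.card_insert_of_notMem hx₃, hc₂]
  · have e1 : ((R.erase y).erase y').card = (R.erase y).card - 1 :=
      Finset.card_erase_of_mem (Finset.mem_erase.2 ⟨hyy.symm, hyR'⟩)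
    rw [e1, Finset.card_erase_of_mem hyR]
    omega
  · set G := insert x₂ ((R.erase y).erase y') with hG
    set L₂ := lkF H₂ (insert x₂ (insert x₁ W)) G with hL₂
    have hL₂s : L₂ ⊆ insert x₂ (insert x₁ W) := fun z hz => (mem_lkF.1 hz).1
    have htL : t ∈ L₂ := mem_lkF.2 ⟨m₂ (mW₁ htW), hGt⟩
    have hxL : x₁ ∈ L₂ := mem_lkF.2 ⟨m₂ mx₁, hGx⟩
    rw [s3.sd.lkF_old hsubG hGt hGx, (s3.sd.sub hL₂s htL hxL).lam_eq]
    -- members of `L₂`
    have memL : ∀ z ∈ L₂, z ∈ insert x₁ W ∧ (z = x₁ ∨ z = y' ∨ (H₁.Adj x₁ z ∧ H₁.Adj y' z)) := by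
      intro z hz
      obtain ⟨h1, h2⟩ := mem_lkF.1 hz
      have h3 := h2 x₂ (Finset.mem_insert_self _ _)
      rcases Finset.mem_insert.1 h1 with h4 | h4
      · exact absurd h4.symm h3.ne
      · exact ⟨h4, (s2.sd.h2 z h4).1 h3⟩
    have hyL : y' ∈ L₂ := by
      refine mem_lkF.2 ⟨m₂ (mW₁ hyW'), fun g hg => ?_⟩
      rcases Finset.mem_insert.1 hg with hg | hg
      · rw [hg]; exact (s2.sd.h2 y' (mW₁ hyW')).2 (Or.inr (Or.inl rfl))
      · obtain ⟨h1, h2, h3⟩ := (hR' g).1 hg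
        exact r2r g h1 y' hyR' h3
    have z1 : lam H₂ L₂ = 0 := by
      refine lam_susp hxL hyL (neW₁ hyW').symm s2.sd.nab ?_
      intro z hz hzx hzy
      obtain ⟨h1, h2⟩ := memL z hz
      rcases h2 with h2 | h2 | ⟨h2, h3⟩
      · exact absurd h2 hzx
      · exact absurd h2 hzy
      · exact ⟨(s2.sd.h1 x₁ mx₁ z h1).2 ⟨h2, fun e => hzy e.2, fun e => neW₁ hyW' e.1.symm⟩,
          (s2.sd.h1 y' (mW₁ hyW') z h1).2 ⟨h3, fun e => neW₁ hyW' e.1, fun e => hzx e.2⟩⟩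
    have z2 : lk H₂ (lk H₂ L₂ t) x₁ = lkF H W (insert t R) := by
      ext z
      rw [IsSd.mem_lab]
      constructor
      · intro hz
        obtain ⟨h1, h2, h3⟩ := hz
        obtain ⟨h4, h5⟩ := memL z h1
        have hzx : z ≠ x₁ := h3.ne.symm
        have hzW : z ∈ W := (Finset.mem_insert.1 h4).resolve_left hzx
        have hzy : z ≠ y' := fun e => s2.sd.nab (by rw [← e]; exact h3)
        obtain ⟨h6, h7⟩ : H₁.Adj x₁ z ∧ H₁.Adj y' z := by
          rcases h5 with h5 | h5 | h5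
          · exact absurd h5 hzx
          · exact absurd h5 hzy
          · exact h5
        have h8 : H₁.Adj t z := ((s2.sd.h1 t (mW₁ htW) z h4).1 h2).1
        have h9 : H.Adj t z ∧ H.Adj y z := by
          rcases (s1.sd.h2 z hzW).1 h6 with h9 | h9 | h9
          · exact absurd h9.symm h8.ne
          · exact absurd (by rw [h9] at h8; exact h8) s1.sd.nab
          · exact h9
        refine mem_lkF.2 ⟨hzW, fun g hg => ?_⟩
        rcases Finset.mem_insert.1 hg with hg | hg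
        · rw [hg]; exact h9.1
        · by_cases hgy : g = y
          · rw [hgy]; exact h9.2
          · by_cases hgy' : g = y'
            · rw [hgy']
              exact ((s1.sd.h1 y' hyW' z hzW).1 h7).1
            · have h10 := (mem_lkF.1 h1).2 g
                (Finset.mem_insert_of_mem ((hR' g).2 ⟨hg, hgy, hgy'⟩))
              exact ((s1.sd.h1 g (h.sub hg) z hzW).1
                ((s2.sd.h1 g (mW₁ (h.sub hg)) z h4).1 h10).1).1
      · intro hz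
        obtain ⟨hzW, h1⟩ := mem_lkF.1 hz
        have htz : H.Adj t z := h1 t (Finset.mem_insert_self _ _)
        have hRz : ∀ g ∈ R, H.Adj g z := fun g hg => h1 g (Finset.mem_insert_of_mem hg)
        have hzt : z ≠ t := htz.ne.symm
        have hzy : z ≠ y := (hRz y hyR).ne.symm
        have hzy' : z ≠ y' := (hRz y' hyR').ne.symm
        have c1 : H₁.Adj x₁ z := (s1.sd.h2 z hzW).2 (Or.inr (Or.inr ⟨htz, hRz y hyR⟩))
        have c2 : H₁.Adj t z := (s1.sd.h1 t htW z hzW).2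
          ⟨htz, fun e => hzy e.2, fun e => hzt e.2⟩
        have c3 : ∀ g ∈ R, H₁.Adj g z := fun g hg =>
          (s1.sd.adj_of_ne (h.sub hg) hzW (r0t g hg) hzt).2 (hRz g hg)
        have c4 : H₂.Adj x₂ z := (s2.sd.h2 z (mW₁ hzW)).2 (Or.inr (Or.inr ⟨c1, c3 y' hyR'⟩))
        refine ⟨mem_lkF.2 ⟨m₂ (mW₁ hzW), fun g hg => ?_⟩, ?_, ?_⟩
        · rcases Finset.mem_insert.1 hg with hg | hg
          · rw [hg]; exact c4
          · obtain ⟨h4, -⟩ := (hR' g).1 hg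
            exact (s2.sd.adj_of_ne (mW₁ (h.sub h4)) (mW₁ hzW) (neW₁ (h.sub h4))
              (neW₁ hzW)).2 (c3 g h4)
        · exact (s2.sd.adj_of_ne (mW₁ htW) (mW₁ hzW) (neW₁ htW) (neW₁ hzW)).2 c2
        · exact (s2.sd.h1 x₁ mx₁ z (mW₁ hzW)).2 ⟨c1, fun e => hzy' e.2,
            fun e => neW₁ hyW' e.1.symm⟩
    have z3 : lam H₂ (lkF H W (insert t R)) = lam H (lkF H W (insert t R)) := by
      refine (lam_congr fun z hz w hw => ?_).symm
      obtain ⟨h1, h2⟩ := mem_lkF.1 hz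
      obtain ⟨h3, h4⟩ := mem_lkF.1 hw
      have htz := h2 t (Finset.mem_insert_self _ _)
      have htw := h4 t (Finset.mem_insert_self _ _)
      rw [s2.sd.adj_of_ne (mW₁ h1) (mW₁ h3) (neW₁ h1) (neW₁ h3),
        s1.sd.adj_of_ne h1 h3 htz.ne.symm htw.ne.symm]
    rw [z1, z2, z3]
    ring

theorem St.iter (n : ℕ) : ∀ {H : SimpleGraph α} {W : Finset α} {t : α} {R : Finset α},
    St k H W d p q t R → R.card = 2 * n + 1 → W.card + 3 * n ≤ Fintype.card α →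
    ∃ (H' : SimpleGraph α) (W' : Finset α) (t' : α), St k H' W' d p q t' {p} ∧
      lam H' W' = lam H W ∧ W'.card = W.card + 3 * n ∧
      lam H' (lkF H' W' (insert t' {p})) = (-1 / 4) ^ n * lam H (lkF H W (insert t R)) := by
  induction n with
  | zero =>
    intro H W t R h hR hW
    obtain ⟨r, hr⟩ := Finset.card_eq_one.1 (by omega : R.card = 1)
    have hp := h.pR
    rw [hr, Finset.mem_singleton] at hp
    rw [← hp] at hr
    rw [hr] at h ⊢
    exact ⟨H, W, t, h, rfl, by omega, by rw [pow_zero, one_mul]⟩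
  | succ n ih =>
    intro H W t R h hR hW
    obtain ⟨H', W', t', R', h1, h2, h3, h4, h5⟩ := h.step (by omega) (by omega)
    obtain ⟨H'', W'', t'', g1, g2, g3, g4⟩ := ih h1 (by omega) (by omega)
    refine ⟨H'', W'', t'', g1, by rw [g2, h2], by omega, ?_⟩
    rw [g4, h5, pow_succ]
    ring

/-- the first subdivision -/
theorem exists_St {n : ℕ} (hS : Sp k H (2 * (n + 1)) W) (ha : a ∈ W) (hb : b ∈ W)
    (hab : H.Adj a b) (hW : W.card + 1 ≤ Fintype.card α) :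
    ∃ (H' : SimpleGraph α) (W' : Finset α) (t : α) (R : Finset α),
      St k H' W' (2 * (n + 1)) a b t R ∧ R.card = 2 * n + 1 ∧ W'.card = W.card + 1 ∧
      lam H' W' = lam H W - 1 / 4 * lam H (lk H (lk H W a) b) ∧
      lam H' (lkF H' W' (insert t R)) = 1 := by
  obtain ⟨x, hx⟩ := exists_fresh (W := W) (by omega)
  obtain ⟨H', s⟩ : ∃ H', IsSd H H' W a b x := ⟨_, isSd_sdG ha hb hab hx⟩
  have hN : NP H (2 * n + 1 + 1) W := hS.np
  have hbL : b ∈ lk H W a := mem_lk.2 ⟨hb, hab⟩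
  have hNL : NP H (2 * n) (lk H (lk H W a) b) := (hN.lk ha).lk hbL
  obtain ⟨β, hβ, hβc, hβl⟩ := hNL.exists_facet
  obtain ⟨hβs, hβa⟩ := mem_cl.1 hβ
  have hβ' : ∀ r ∈ β, r ∈ W ∧ H.Adj a r ∧ H.Adj b r := fun r hr => IsSd.mem_lab.1 (hβs hr)
  have haβ : a ∉ β := fun hc => (hβ' a hc).2.1.ne rfl
  have sa : ∀ y ∈ W, H.Adj a y → y ≠ b → H'.Adj a y := fun y hy h1 h2 =>
    (s.h1 a ha y hy).2 ⟨h1, fun e => h2 e.2, fun e => hab.ne e.1⟩
  have sb : ∀ y ∈ W, H.Adj b y → y ≠ a → H'.Adj b y := fun y hy h1 h2 =>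
    (s.h1 b hb y hy).2 ⟨h1, fun e => hab.ne e.1.symm, fun e => h2 e.2⟩
  refine ⟨H', insert x W, x, insert a β, ⟨s.sp hS, ?_, ?_, ?_, ?_, Finset.mem_insert_self _ _⟩,
    ?_, Finset.card_insert_of_notMem hx, s.lam_eq, ?_⟩
  · refine ⟨Finset.mem_insert_self _ _, Finset.mem_insert_of_mem ha, Finset.mem_insert_of_mem hb,
      hab.ne, s.nab, (s.h2 a ha).2 (Or.inl rfl), (s.h2 b hb).2 (Or.inr (Or.inl rfl)), ?_⟩
    intro y hy hxy hya hyb
    rcases Finset.mem_insert.1 hy with hy | hy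
    · exact absurd hy.symm hxy.ne
    · rcases (s.h2 y hy).1 hxy with h1 | h1 | h1
      · exact absurd h1 hya
      · exact absurd h1 hyb
      · exact ⟨sa y hy h1.1 hyb, sb y hy h1.2 hya⟩
  · intro r hr
    rcases Finset.mem_insert.1 hr with hr | hr
    · rw [hr]; exact Finset.mem_insert_of_mem ha
    · exact Finset.mem_insert_of_mem (hβ' r hr).1
  · intro r hr
    rcases Finset.mem_insert.1 hr with hr | hr
    · rw [hr]; exact (s.h2 a ha).2 (Or.inl rfl)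
    · exact (s.h2 r (hβ' r hr).1).2 (Or.inr (Or.inr (hβ' r hr).2))
  · have key : ∀ r ∈ β, H'.Adj a r := fun r hr =>
      sa r (hβ' r hr).1 (hβ' r hr).2.1 (hβ' r hr).2.2.ne.symm
    intro r hr z hz hrz
    rcases Finset.mem_insert.1 hr with hr | hr <;> rcases Finset.mem_insert.1 hz with hz | hz
    · exact absurd (hr.trans hz.symm) hrz
    · rw [hr]; exact key z hz
    · rw [hz]; exact (key r hr).symm
    · exact (s.adj_of_ne (hβ' r hr).1 (hβ' z hz).1 (hβ' r hr).2.1.ne.symm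
        (hβ' z hz).2.1.ne.symm).2 (hβa r hr z hz hrz)
  · rw [Finset.card_insert_of_notMem haβ, hβc]
  · have e1 : lkF H' (insert x W) (insert x (insert a β)) = ∅ := by
      apply Finset.eq_empty_of_forall_notMem
      intro z hz
      obtain ⟨h1, h2⟩ := mem_lkF.1 hz
      have h3 := h2 x (Finset.mem_insert_self _ _)
      have h4 := h2 a (Finset.mem_insert_of_mem (Finset.mem_insert_self _ _))
      rcases Finset.mem_insert.1 h1 with h5 | h5
      · exact absurd h5.symm h3.ne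
      · rcases (s.h2 z h5).1 h3 with h6 | h6 | h6
        · exact absurd h6.symm h4.ne
        · exact absurd (by rw [h6] at h4; exact h4) s.nab
        · have h7 : z ∈ lkF H (lk H (lk H W a) b) β := by
            refine mem_lkF.2 ⟨IsSd.mem_lab.2 ⟨h5, h6⟩, fun r hr => ?_⟩
            have h8 := h2 r (Finset.mem_insert_of_mem (Finset.mem_insert_of_mem hr))
            exact ((s.h1 r (hβ' r hr).1 z h5).1 h8).1
          rw [hβl] at h7
          exact absurd h7 (Finset.notMem_empty _)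
    rw [e1, lam_empty]

/-- repeated subdivision of an edge -/
theorem incr (j : ℕ) : ∀ {H : SimpleGraph α} {W : Finset α} {a b : α}, Sp k H d W → a ∈ W →
    b ∈ W → H.Adj a b → W.card + j ≤ Fintype.card α →
    ∃ (H' : SimpleGraph α) (W' : Finset α), Sp k H' d W' ∧ W'.card = W.card + j ∧
      lam H' W' = lam H W - j * (1 / 4 * lam H (lk H (lk H W a) b)) := by
  induction j with
  | zero =>
    intro H W a b hS ha hb hab hW
    exact ⟨H, W, hS, rfl, by simp⟩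
  | succ j ih =>
    intro H W a b hS ha hb hab hW
    obtain ⟨x, hx⟩ := exists_fresh (W := W) (by omega)
    obtain ⟨H', s⟩ : ∃ H', IsSd H H' W a b x := ⟨_, isSd_sdG ha hb hab hx⟩
    have hc : (insert x W).card = W.card + 1 := Finset.card_insert_of_notMem hx
    have hax : H'.Adj a x := ((s.h2 a ha).2 (Or.inl rfl)).symm
    obtain ⟨H'', W'', g1, g2, g3⟩ := ih (s.sp hS) (Finset.mem_insert_of_mem ha)
      (Finset.mem_insert_self x W) hax (by omega)
    have e1 : lk H' (lk H' (insert x W) a) x = lk H (lk H W a) b := by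
      ext z
      rw [IsSd.mem_lab, IsSd.mem_lab]
      constructor
      · rintro ⟨h1, h2, h3⟩
        rcases Finset.mem_insert.1 h1 with h4 | h4
        · exact absurd h4.symm h3.ne
        · rcases (s.h2 z h4).1 h3 with h5 | h5 | h5
          · exact absurd h5.symm h2.ne
          · exact absurd (by rw [h5] at h2; exact h2) s.nab
          · exact ⟨h4, h5⟩
      · rintro ⟨h1, h2, h3⟩
        exact ⟨Finset.mem_insert_of_mem h1, (s.h1 a ha z h1).2
          ⟨h2, fun e => h3.ne e.2.symm, fun e => hab.ne e.1⟩,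
          (s.h2 z h1).2 (Or.inr (Or.inr ⟨h2, h3⟩))⟩
    refine ⟨H'', W'', g1, by omega, ?_⟩
    rw [g3, e1, s.lam_eq, ← lam_congr s.cong_ab]
    push_cast
    ring

/-- **the construction in a type with enough free elements** -/
theorem build {n : ℕ} (j : ℕ) (hS : Sp k H (2 * (n + 1)) W) (ha : a ∈ W) (hb : b ∈ W)
    (hab : H.Adj a b) (hW : W.card + (1 + 3 * n + j) ≤ Fintype.card α) :
    ∃ (H' : SimpleGraph α) (W' : Finset α), Sp k H' (2 * (n + 1)) W' ∧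
      W'.card = W.card + (1 + 3 * n + j) ∧
      lam H' W' = lam H W - 1 / 4 * lam H (lk H (lk H W a) b) + j * (-1 / 4) ^ (n + 1) := by
  obtain ⟨H₁, W₁, t, R, h1, h2, h3, h4, h5⟩ := exists_St hS ha hb hab (by omega)
  obtain ⟨H₂, W₂, t', g1, g2, g3, g4⟩ := h1.iter n h2 (by omega)
  obtain ⟨H₃, W₃, e1, e2, e3⟩ := incr j g1.sp g1.sus.ht g1.sus.hp g1.sus.tp (by omega)
  refine ⟨H₃, W₃, e1, by omega, ?_⟩
  have e4 : lkF H₂ W₂ (insert t' {a}) = lk H₂ (lk H₂ W₂ t') a := by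
    ext z
    rw [IsSd.mem_lab, mem_lkF]
    simp
  rw [e3, ← e4, g4, h5, g2, h4, pow_succ]
  ring

end Pool.Agent.D0H29.VD
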