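import Pool.Agent.D0H80.CD.Tube3

set_option autoImplicit false
set_option linter.unusedSectionVars false
set_option linter.unusedVariables false

/-! # Flag homology spheres: replacing a vertex, subdividing an edge -/

namespace Pool.Agent.D0H29.VD

open Pool.Agent.W497.FS Pool.Agent.D0H80.CD

section Graph

variable {α : Type} [LinearOrder α] [Fintype α] {H H' : SimpleGraph α} {U W : Finset α} {a b x : α}

/-- `x` replaces the vertex `b` of the complex on `U` -/
structure IsRep (H H' : SimpleGraph α) (U : Finset α) (b x : α) : Prop where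
  hb : b ∈ U
  hx : x ∉ U
  h1 : ∀ y ∈ U, y ≠ b → ∀ z ∈ U, z ≠ b → (H'.Adj y z ↔ H.Adj y z)
  h2 : ∀ z ∈ U, z ≠ b → (H'.Adj x z ↔ H.Adj b z)

theorem IsRep.lk_x (h : IsRep H H' U b x) : lk H' (insert x (U.erase b)) x = lk H U b := by
  ext z
  rw [mem_lk, mem_lk, Finset.mem_insert, Finset.mem_erase]
  constructor
  · rintro ⟨h3 | ⟨h3, h4⟩, h5⟩
    · exact absurd h3.symm h5.ne
    · exact ⟨h4, (h.h2 z h4 h3).1 h5⟩
  · rintro ⟨h3, h4⟩
    have hne : z ≠ b := h4.ne.symm
    exact ⟨Or.inr ⟨hne, h3⟩, (h.h2 z h3 hne).2 h4⟩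

theorem IsRep.lk_adj (h : IsRep H H' U b x) {v : α} (hv : v ∈ U) (hvb : v ≠ b)
    (hadj : H.Adj b v) :
    lk H' (insert x (U.erase b)) v = insert x ((lk H U v).erase b) := by
  ext z
  rw [mem_lk, Finset.mem_insert, Finset.mem_insert, Finset.mem_erase, Finset.mem_erase, mem_lk]
  constructor
  · rintro ⟨h3 | ⟨h3, h4⟩, h5⟩
    · exact Or.inl h3
    · exact Or.inr ⟨h3, h4, (h.h1 v hv hvb z h4 h3).1 h5⟩
  · rintro (rfl | ⟨h3, h4, h5⟩)
    · exact ⟨Or.inl rfl, ((h.h2 v hv hvb).2 hadj).symm⟩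
    · exact ⟨Or.inr ⟨h3, h4⟩, (h.h1 v hv hvb z h4 h3).2 h5⟩

theorem IsRep.link (h : IsRep H H' U b x) {v : α} (hadj : H.Adj b v) :
    IsRep H H' (lk H U v) b x where
  hb := mem_lk.2 ⟨h.hb, hadj.symm⟩
  hx := fun hx => h.hx (lk_subset hx)
  h1 := fun y hy hyb z hz hzb => h.h1 y (lk_subset hy) hyb z (lk_subset hz) hzb
  h2 := fun z hz hzb => h.h2 z (lk_subset hz) hzb

theorem IsRep.lk_non (h : IsRep H H' U b x) {v : α} (hv : v ∈ U) (hvb : v ≠ b)
    (hadj : ¬ H.Adj b v) : lk H' (insert x (U.erase b)) v = lk H U v := by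
  ext z
  rw [mem_lk, Finset.mem_insert, Finset.mem_erase, mem_lk]
  constructor
  · rintro ⟨h3 | ⟨h3, h4⟩, h5⟩
    · rw [h3] at h5
      exact absurd ((h.h2 v hv hvb).1 h5.symm) hadj
    · exact ⟨h4, (h.h1 v hv hvb z h4 h3).1 h5⟩
  · rintro ⟨h4, h5⟩
    have h3 : z ≠ b := fun hz => hadj (by rw [← hz]; exact h5.symm)
    exact ⟨Or.inr ⟨h3, h4⟩, (h.h1 v hv hvb z h4 h3).2 h5⟩

/-- the adjacency does not change in the link of `b` -/
theorem IsRep.cong_b (h : IsRep H H' U b x) : ∀ y ∈ lk H U b, ∀ z ∈ lk H U b,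
    H.Adj y z ↔ H'.Adj y z := by
  intro y hy z hz
  obtain ⟨hy1, hy2⟩ := mem_lk.1 hy
  obtain ⟨hz1, hz2⟩ := mem_lk.1 hz
  exact (h.h1 y hy1 hy2.ne.symm z hz1 hz2.ne.symm).symm

theorem IsRep.cong_non (h : IsRep H H' U b x) {v : α} (hadj : ¬ H.Adj b v) :
    ∀ y ∈ lk H U v, ∀ z ∈ lk H U v, H.Adj y z ↔ H'.Adj y z := by
  intro y hy z hz
  obtain ⟨hy1, hy2⟩ := mem_lk.1 hy
  obtain ⟨hz1, hz2⟩ := mem_lk.1 hz
  exact (h.h1 y hy1 (fun e => hadj (by rw [← e]; exact hy2.symm)) z hz1
    (fun e => hadj (by rw [← e]; exact hz2.symm))).symm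

theorem IsRep.np {d : ℕ} (h : IsRep H H' U b x) (hN : NP H d U) :
    NP H' d (insert x (U.erase b)) := by
  induction d generalizing U with
  | zero =>
    have h0 : U = ∅ := hN
    have := h.hb
    rw [h0] at this
    exact absurd this (Finset.notMem_empty _)
  | succ d ih =>
    have hxU : x ∉ U.erase b := fun hx => h.hx (Finset.mem_of_mem_erase hx)
    rcases d with _ | d
    · have h' : U.card = 2 ∧ ∀ y ∈ U, ∀ z ∈ U, ¬ H.Adj y z := hN
      refine ⟨?_, fun y hy z hz hyz => ?_⟩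
      · rw [Finset.card_insert_of_notMem hxU, Finset.card_erase_of_mem h.hb, h'.1]
      · rcases Finset.mem_insert.1 hy with hy | hy <;> rcases Finset.mem_insert.1 hz with hz | hz
        · rw [hy, hz] at hyz; exact hyz.ne rfl
        · rw [hy] at hyz
          obtain ⟨hz1, hz2⟩ := Finset.mem_erase.1 hz
          exact h'.2 b h.hb z hz2 ((h.h2 z hz2 hz1).1 hyz)
        · rw [hz] at hyz
          obtain ⟨hy1, hy2⟩ := Finset.mem_erase.1 hy
          exact h'.2 b h.hb y hy2 ((h.h2 y hy2 hy1).1 hyz.symm)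
        · obtain ⟨hy1, hy2⟩ := Finset.mem_erase.1 hy
          obtain ⟨hz1, hz2⟩ := Finset.mem_erase.1 hz
          exact h'.2 y hy2 z hz2 ((h.h1 y hy2 hy1 z hz2 hz1).1 hyz)
    · refine ⟨⟨x, Finset.mem_insert_self _ _⟩, ?_, ?_⟩
      · intro A hA hne hneq
        classical
        let φ : α → α := fun u => if u = b then x else u
        have hφ : ∀ u ∈ U, φ u ∈ insert x (U.erase b) := by
          intro u hu
          by_cases hub : u = b
          · simp [φ, hub]
          · simp [φ, hub, hu]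
        have hne' : (U.filter (fun u => φ u ∈ A)).Nonempty := by
          obtain ⟨y, hy⟩ := hne
          rcases Finset.mem_insert.1 (hA hy) with h3 | h3
          · exact ⟨b, Finset.mem_filter.2 ⟨h.hb, by simpa [φ, ← h3] using hy⟩⟩
          · obtain ⟨h4, h5⟩ := Finset.mem_erase.1 h3
            exact ⟨y, Finset.mem_filter.2 ⟨h5, by simpa [φ, h4] using hy⟩⟩
        have hneq' : U.filter (fun u => φ u ∈ A) ≠ U := by
          intro hE
          apply hneq
          refine Finset.Subset.antisymm hA fun y hy => ?_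
          rcases Finset.mem_insert.1 hy with h3 | h3
          · have : b ∈ U.filter (fun u => φ u ∈ A) := by rw [hE]; exact h.hb
            have h4 := (Finset.mem_filter.1 this).2
            simpa [φ, h3] using h4
          · obtain ⟨h4, h5⟩ := Finset.mem_erase.1 h3
            have : y ∈ U.filter (fun u => φ u ∈ A) := by rw [hE]; exact h5
            have h6 := (Finset.mem_filter.1 this).2
            simpa [φ, h4] using h6
        obtain ⟨u, hu, w, hw, hwn, huw⟩ := hN.2.1 _ (Finset.filter_subset _ _) hne' hneq'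
        obtain ⟨huU, huA⟩ := Finset.mem_filter.1 hu
        refine ⟨φ u, huA, φ w, hφ w hw, fun hc => hwn (Finset.mem_filter.2 ⟨hw, hc⟩), ?_⟩
        by_cases hub : u = b
        · have hwb : w ≠ b := fun e => huw.ne (by rw [hub, e])
          have e1 : φ u = x := by simp [φ, hub]
          have e2 : φ w = w := by simp [φ, hwb]
          rw [e1, e2]
          rw [hub] at huw
          exact (h.h2 w hw hwb).2 huw
        · have e1 : φ u = u := by simp [φ, hub]
          rw [e1]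
          by_cases hwb : w = b
          · have e2 : φ w = x := by simp [φ, hwb]
            rw [e2]
            rw [hwb] at huw
            exact ((h.h2 u huU hub).2 huw.symm).symm
          · have e2 : φ w = w := by simp [φ, hwb]
            rw [e2]
            exact (h.h1 u huU hub w hw hwb).2 huw
      · intro v hv
        rcases Finset.mem_insert.1 hv with hv | hv
        · rw [hv, h.lk_x]
          exact NP_congr h.cong_b (hN.lk h.hb)
        · obtain ⟨hvb, hvU⟩ := Finset.mem_erase.1 hv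
          by_cases hadj : H.Adj b v
          · rw [h.lk_adj hvU hvb hadj]
            exact ih (h.link hadj) (hN.lk hvU)
          · rw [h.lk_non hvU hvb hadj]
            exact NP_congr (h.cong_non hadj) (hN.lk hvU)

/-- the edge `ab` of the complex on `W` is subdivided by the vertex `x` -/
structure IsSd (H H' : SimpleGraph α) (W : Finset α) (a b x : α) : Prop where
  ha : a ∈ W
  hb : b ∈ W
  hab : H.Adj a b
  hx : x ∉ W
  h1 : ∀ y ∈ W, ∀ z ∈ W, (H'.Adj y z ↔ H.Adj y z ∧ ¬ (y = a ∧ z = b) ∧ ¬ (y = b ∧ z = a))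
  h2 : ∀ z ∈ W, (H'.Adj x z ↔ z = a ∨ z = b ∨ (H.Adj a z ∧ H.Adj b z))

theorem IsSd.symm (h : IsSd H H' W a b x) : IsSd H H' W b a x where
  ha := h.hb
  hb := h.ha
  hab := h.hab.symm
  hx := h.hx
  h1 := fun y hy z hz => by rw [h.h1 y hy z hz]; tauto
  h2 := fun z hz => by rw [h.h2 z hz]; tauto

theorem IsSd.sub (h : IsSd H H' W a b x) {X : Finset α} (hX : X ⊆ W) (ha : a ∈ X) (hb : b ∈ X) :
    IsSd H H' X a b x where
  ha := ha
  hb := hb
  hab := h.hab
  hx := fun hx => h.hx (hX hx)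
  h1 := fun y hy z hz => h.h1 y (hX hy) z (hX hz)
  h2 := fun z hz => h.h2 z (hX hz)

theorem IsSd.nab (h : IsSd H H' W a b x) : ¬ H'.Adj a b := fun hc =>
  ((h.h1 a h.ha b h.hb).1 hc).2.1 ⟨rfl, rfl⟩

/-- on sets which do not contain both `a` and `b` the adjacency does not change -/
theorem IsSd.cong (h : IsSd H H' W a b x) {X : Finset α} (hX : X ⊆ W)
    (hn : ¬ (a ∈ X ∧ b ∈ X)) : ∀ y ∈ X, ∀ z ∈ X, H.Adj y z ↔ H'.Adj y z := by
  intro y hy z hz
  rw [h.h1 y (hX hy) z (hX hz)]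
  constructor
  · intro hyz
    refine ⟨hyz, ?_, ?_⟩
    · rintro ⟨rfl, rfl⟩; exact hn ⟨hy, hz⟩
    · rintro ⟨rfl, rfl⟩; exact hn ⟨hz, hy⟩
  · exact fun h => h.1

theorem IsSd.lk_x (h : IsSd H H' W a b x) :
    lk H' (insert x W) x = {a, b} ∪ lk H (lk H W a) b := by
  ext z
  simp only [mem_lk, Finset.mem_insert, Finset.mem_union, Finset.mem_singleton]
  constructor
  · rintro ⟨h3 | h3, h4⟩
    · exact absurd h3.symm h4.ne
    · rcases (h.h2 z h3).1 h4 with h5 | h5 | ⟨h5, h6⟩
      · exact Or.inl (Or.inl h5)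
      · exact Or.inl (Or.inr h5)
      · exact Or.inr ⟨⟨h3, h5⟩, h6⟩
  · rintro ((h3 | h3) | ⟨⟨h3, h5⟩, h6⟩)
    · rw [h3]; exact ⟨Or.inr h.ha, (h.h2 _ h.ha).2 (Or.inl rfl)⟩
    · rw [h3]; exact ⟨Or.inr h.hb, (h.h2 _ h.hb).2 (Or.inr (Or.inl rfl))⟩
    · exact ⟨Or.inr h3, (h.h2 z h3).2 (Or.inr (Or.inr ⟨h5, h6⟩))⟩

theorem IsSd.lk_both (h : IsSd H H' W a b x) {v : α} (hv : v ∈ W) (hav : H.Adj a v)
    (hbv : H.Adj b v) : lk H' (insert x W) v = insert x (lk H W v) := by
  have hva : v ≠ a := hav.ne.symm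
  have hvb : v ≠ b := hbv.ne.symm
  ext z
  simp only [mem_lk, Finset.mem_insert]
  constructor
  · rintro ⟨h3 | h3, h4⟩
    · exact Or.inl h3
    · exact Or.inr ⟨h3, ((h.h1 v hv z h3).1 h4).1⟩
  · rintro (h3 | ⟨h3, h4⟩)
    · rw [h3]; exact ⟨Or.inl rfl, ((h.h2 v hv).2 (Or.inr (Or.inr ⟨hav, hbv⟩))).symm⟩
    · exact ⟨Or.inr h3, (h.h1 v hv z h3).2 ⟨h4, fun e => hva e.1, fun e => hvb e.1⟩⟩

theorem IsSd.link (h : IsSd H H' W a b x) {v : α} (hav : H.Adj a v) (hbv : H.Adj b v) :
    IsSd H H' (lk H W v) a b x :=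
  h.sub lk_subset (mem_lk.2 ⟨h.ha, hav.symm⟩) (mem_lk.2 ⟨h.hb, hbv.symm⟩)

theorem IsSd.lk_one (h : IsSd H H' W a b x) {v : α} (hv : v ∈ W) (hva : v ≠ a) (hvb : v ≠ b)
    (hn : ¬ (H.Adj a v ∧ H.Adj b v)) : lk H' (insert x W) v = lk H W v := by
  ext z
  simp only [mem_lk, Finset.mem_insert]
  constructor
  · rintro ⟨h3 | h3, h4⟩
    · rw [h3] at h4
      rcases (h.h2 v hv).1 h4.symm with h5 | h5 | h5
      · exact absurd h5 hva
      · exact absurd h5 hvb
      · exact absurd h5 hn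
    · exact ⟨h3, ((h.h1 v hv z h3).1 h4).1⟩
  · rintro ⟨h3, h4⟩
    exact ⟨Or.inr h3, (h.h1 v hv z h3).2 ⟨h4, fun e => hva e.1, fun e => hvb e.1⟩⟩

theorem IsSd.cong_one (h : IsSd H H' W a b x) {v : α} (hn : ¬ (H.Adj a v ∧ H.Adj b v)) :
    ∀ y ∈ lk H W v, ∀ z ∈ lk H W v, H.Adj y z ↔ H'.Adj y z :=
  h.cong lk_subset (fun hc => hn ⟨(mem_lk.1 hc.1).2.symm, (mem_lk.1 hc.2).2.symm⟩)

theorem IsSd.lk_a (h : IsSd H H' W a b x) :
    lk H' (insert x W) a = insert x ((lk H W a).erase b) := by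
  have hxa : x ≠ a := fun e => h.hx (by rw [e]; exact h.ha)
  ext z
  simp only [mem_lk, Finset.mem_insert, Finset.mem_erase]
  constructor
  · rintro ⟨h3 | h3, h4⟩
    · exact Or.inl h3
    · obtain ⟨h5, h6, h7⟩ := (h.h1 a h.ha z h3).1 h4
      exact Or.inr ⟨fun e => h6 ⟨rfl, e⟩, h3, h5⟩
  · rintro (h3 | ⟨h3, h4, h5⟩)
    · rw [h3]; exact ⟨Or.inl rfl, ((h.h2 a h.ha).2 (Or.inl rfl)).symm⟩
    · exact ⟨Or.inr h4, (h.h1 a h.ha z h4).2 ⟨h5, fun e => h3 e.2,
        fun e => h.hab.ne e.1⟩⟩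

theorem IsSd.rep (h : IsSd H H' W a b x) : IsRep H H' (lk H W a) b x where
  hb := mem_lk.2 ⟨h.hb, h.hab⟩
  hx := fun hx => h.hx (lk_subset hx)
  h1 := by
    intro y hy hyb z hz hzb
    rw [h.h1 y (lk_subset hy) z (lk_subset hz)]
    exact ⟨fun hc => hc.1, fun hc => ⟨hc, fun e => hzb e.2, fun e => hyb e.1⟩⟩
  h2 := by
    intro z hz hzb
    obtain ⟨hz1, hz2⟩ := mem_lk.1 hz
    rw [h.h2 z hz1]
    constructor
    · rintro (h3 | h3 | h3)
      · exact absurd h3 hz2.ne.symm
      · exact absurd h3 hzb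
      · exact h3.2
    · exact fun h3 => Or.inr (Or.inr ⟨hz2, h3⟩)

theorem IsSd.mem_lab {z : α} : z ∈ lk H (lk H W a) b ↔ z ∈ W ∧ H.Adj a z ∧ H.Adj b z := by
  rw [mem_lk, mem_lk, and_assoc]

theorem IsSd.full (h : IsSd H H' W a b x) : Full H' {a, b} (lk H (lk H W a) b) := by
  intro u hu z hz
  obtain ⟨h3, h4, h5⟩ := IsSd.mem_lab.1 hz
  rcases Finset.mem_insert.1 hu with hu | hu
  · rw [hu]
    exact (h.h1 a h.ha z h3).2 ⟨h4, fun e => h5.ne e.2.symm, fun e => h.hab.ne e.1⟩
  · rw [Finset.mem_singleton.1 hu]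
    exact (h.h1 b h.hb z h3).2 ⟨h5, fun e => h.hab.ne e.1.symm, fun e => h4.ne e.2.symm⟩

theorem IsSd.cong_ab (h : IsSd H H' W a b x) : ∀ y ∈ lk H (lk H W a) b,
    ∀ z ∈ lk H (lk H W a) b, H.Adj y z ↔ H'.Adj y z :=
  h.cong (lk_subset.trans lk_subset) (fun hc => (IsSd.mem_lab.1 hc.1).2.1.ne rfl)

theorem IsSd.np {d : ℕ} (h : IsSd H H' W a b x) (hN : NP H d W) : NP H' d (insert x W) := by
  induction d generalizing W with
  | zero =>
    have h0 : W = ∅ := hN
    have := h.hb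
    rw [h0] at this
    exact absurd this (Finset.notMem_empty _)
  | succ d ih =>
    rcases d with _ | d
    · have h' : W.card = 2 ∧ ∀ y ∈ W, ∀ z ∈ W, ¬ H.Adj y z := hN
      exact absurd h.hab (h'.2 a h.ha b h.hb)
    · have hLa := hN.lk h.ha
      have hbL : b ∈ lk H W a := mem_lk.2 ⟨h.hb, h.hab⟩
      have hLab := hLa.lk hbL
      refine ⟨⟨x, Finset.mem_insert_self _ _⟩, ?_, ?_⟩
      · intro A hA hne hneq
        by_contra hcon
        have key : ∀ y ∈ A, ∀ z ∈ insert x W, H'.Adj y z → z ∈ A := by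
          intro y hy z hz hyz
          by_contra hzA
          exact hcon ⟨y, hy, z, hz, hzA, hyz⟩
        have hxa : H'.Adj x a := (h.h2 a h.ha).2 (Or.inl rfl)
        have hxb : H'.Adj x b := (h.h2 b h.hb).2 (Or.inr (Or.inl rfl))
        have mx : x ∈ insert x W := Finset.mem_insert_self _ _
        have ma : a ∈ insert x W := Finset.mem_insert_of_mem h.ha
        have mb : b ∈ insert x W := Finset.mem_insert_of_mem h.hb
        have hW : (A ∩ W).Nonempty := by
          obtain ⟨y, hy⟩ := hne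
          rcases Finset.mem_insert.1 (hA hy) with h3 | h3
          · rw [h3] at hy
            exact ⟨a, Finset.mem_inter.2 ⟨key x hy a ma hxa, h.ha⟩⟩
          · exact ⟨y, Finset.mem_inter.2 ⟨hy, h3⟩⟩
        have hW' : A ∩ W ≠ W := by
          intro hE
          apply hneq
          have hWA : W ⊆ A := fun y hy => by
            rw [← hE] at hy
            exact (Finset.mem_inter.1 hy).1
          refine Finset.Subset.antisymm hA fun y hy => ?_
          rcases Finset.mem_insert.1 hy with h3 | h3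
          · rw [h3]; exact key a (hWA h.ha) x mx hxa.symm
          · exact hWA h3
        obtain ⟨u, hu, w, hw, hwn, huw⟩ := hN.2.1 _ Finset.inter_subset_right hW hW'
        obtain ⟨huA, huW⟩ := Finset.mem_inter.1 hu
        have hwA : w ∉ A := fun hc => hwn (Finset.mem_inter.2 ⟨hc, hw⟩)
        by_cases hc1 : u = a ∧ w = b
        · have h3 : x ∈ A := key a (by rw [← hc1.1]; exact huA) x mx hxa.symm
          exact hwA (by rw [hc1.2]; exact key x h3 b mb hxb)
        · by_cases hc2 : u = b ∧ w = a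
          · have h3 : x ∈ A := key b (by rw [← hc2.1]; exact huA) x mx hxb.symm
            exact hwA (by rw [hc2.2]; exact key x h3 a ma hxa)
          · exact hwA (key u huA w (Finset.mem_insert_of_mem hw)
              ((h.h1 u huW w hw).2 ⟨huw, hc1, hc2⟩))
      · intro v hv
        rcases Finset.mem_insert.1 hv with hv | hv
        · rw [hv, h.lk_x]
          have := join_np _ rfl h.full (NP_pair h.hab.ne h.nab) (NP_congr h.cong_ab hLab)
          rwa [Nat.add_comm 1 d] at this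
        · by_cases hva : v = a
          · rw [hva, h.lk_a]
            exact h.rep.np hLa
          · by_cases hvb : v = b
            · rw [hvb, h.symm.lk_a]
              exact h.symm.rep.np (hN.lk h.hb)
            · by_cases hadj : H.Adj a v ∧ H.Adj b v
              · rw [h.lk_both hv hadj.1 hadj.2]
                exact ih (h.link hadj.1 hadj.2) (hN.lk hv)
              · rw [h.lk_one hv hva hvb hadj]
                exact NP_congr (h.cong_one hadj) (hN.lk hv)

end Graph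

section Homology

variable {k : Type} [Field k] {α : Type} [LinearOrder α] [Fintype α] {H H' : SimpleGraph α}
  {U W : Finset α} {a b x : α}

theorem IsRep.hs {d : ℕ} (h : IsRep H H' U b x) (hN : NP H d U) (hS : HS k H d U) :
    HS k H' d (insert x (U.erase b)) := by
  induction d generalizing U with
  | zero =>
    have h0 : U = ∅ := hN
    have := h.hb
    rw [h0] at this
    exact absurd this (Finset.notMem_empty _)
  | succ d ih =>
    have hxU : x ∉ U.erase b := fun hx => h.hx (Finset.mem_of_mem_erase hx)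
    have hcl : cl H (U.erase b) = cl H' (U.erase b) := cl_congr (by
      intro y hy z hz
      obtain ⟨hy1, hy2⟩ := Finset.mem_erase.1 hy
      obtain ⟨hz1, hz2⟩ := Finset.mem_erase.1 hz
      exact (h.h1 y hy2 hy1 z hz2 hz1).symm)
    have hE : Acy k H' (U.erase b) := fun j => Ex_congr hcl (hS.erase hN h.hb j)
    have hL : HS k H' d (lk H U b) := HS_congr h.cong_b (hS.lk h.hb)
    refine HS.of_lk (GH.insert (u := x) (Finset.mem_insert_self _ _) ?_ ?_) ?_
    · rw [Finset.erase_insert hxU]; exact hE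
    · rw [h.lk_x]; exact HS.gh hL
    · intro v hv
      refine ⟨d, rfl, ?_⟩
      rcases Finset.mem_insert.1 hv with hv | hv
      · rw [hv, h.lk_x]; exact hL
      · obtain ⟨hvb, hvU⟩ := Finset.mem_erase.1 hv
        by_cases hadj : H.Adj b v
        · rw [h.lk_adj hvU hvb hadj]
          exact ih (h.link hadj) (hN.lk hvU) (hS.lk hvU)
        · rw [h.lk_non hvU hvb hadj]
          exact HS_congr (h.cong_non hadj) (hS.lk hvU)

theorem IsSd.hs {d : ℕ} (h : IsSd H H' W a b x) (hN : NP H d W) (hS : HS k H d W) :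
    HS k H' d (insert x W) := by
  induction d generalizing W with
  | zero =>
    have h0 : W = ∅ := hN
    have := h.hb
    rw [h0] at this
    exact absurd this (Finset.notMem_empty _)
  | succ d ih =>
    rcases d with _ | d
    · have h' : W.card = 2 ∧ ∀ y ∈ W, ∀ z ∈ W, ¬ H.Adj y z := hN
      exact absurd h.hab (h'.2 a h.ha b h.hb)
    · have hbL : b ∈ lk H W a := mem_lk.2 ⟨h.hb, h.hab⟩
      have hxa : x ≠ a := fun e => h.hx (by rw [e]; exact h.ha)
      have hLa : HS k H' (d + 1) (insert x ((lk H W a).erase b)) :=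
        h.rep.hs (hN.lk h.ha) (hS.lk h.ha)
      have hLb : HS k H' (d + 1) (insert x ((lk H W b).erase a)) :=
        h.symm.rep.hs (hN.lk h.hb) (hS.lk h.hb)
      have hLx : HS k H' (d + 1) (lk H' (insert x W) x) := by
        rw [h.lk_x]
        have := join_hs _ rfl h.full (NP_pair h.hab.ne h.nab)
          (NP_congr h.cong_ab ((hN.lk h.ha).lk hbL)) (HS_pair (k := k) h.hab.ne h.nab)
          (HS_congr h.cong_ab ((hS.lk h.ha).lk hbL))
        rwa [Nat.add_comm 1 d] at this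
      have hcl : cl H (W.erase a) = cl H' (W.erase a) := cl_congr
        (h.cong (Finset.erase_subset _ _) (fun hc => absurd rfl (Finset.mem_erase.1 hc.1).1))
      have hE : Acy k H' (W.erase a) := fun j => Ex_congr hcl (hS.erase hN h.ha j)
      have hxW : x ∉ W.erase a := fun hx => h.hx (Finset.mem_of_mem_erase hx)
      have hcone : Acy k H' (lk H' (insert x (W.erase a)) x) := by
        have hb' : b ∈ lk H' (insert x (W.erase a)) x := mem_lk.2
          ⟨Finset.mem_insert_of_mem (Finset.mem_erase.2 ⟨h.hab.ne.symm, h.hb⟩),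
            (h.h2 b h.hb).2 (Or.inr (Or.inl rfl))⟩
        refine Acy.of_cone hb' ?_
        ext z
        rw [Finset.mem_erase, mem_lk]
        constructor
        · rintro ⟨h3, h4⟩
          exact ⟨h4.ne.symm, h3⟩
        · rintro ⟨h3, h4⟩
          refine ⟨h4, ?_⟩
          obtain ⟨h5, h6⟩ := mem_lk.1 h4
          rcases Finset.mem_insert.1 h5 with h5 | h5
          · exact absurd h5.symm h6.ne
          · obtain ⟨h7, h8⟩ := Finset.mem_erase.1 h5
            rcases (h.h2 z h8).1 h6 with h9 | h9 | h9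
            · exact absurd h9 h7
            · exact absurd h9 h3
            · exact (h.h1 b h.hb z h8).2 ⟨h9.2, fun e => h.hab.ne e.1.symm, fun e => h7 e.2⟩
      refine HS.of_lk (GH.insert (u := a) (Finset.mem_insert_of_mem h.ha) ?_ ?_) ?_
      · have e1 : (insert x W).erase a = insert x (W.erase a) :=
          Finset.erase_insert_of_ne hxa
        rw [e1]
        refine Acy.insert (Finset.mem_insert_self x _) ?_ hcone
        rw [Finset.erase_insert hxW]
        exact hE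
      · rw [h.lk_a]; exact HS.gh hLa
      · intro v hv
        refine ⟨d + 1, rfl, ?_⟩
        rcases Finset.mem_insert.1 hv with hv | hv
        · rw [hv]; exact hLx
        · by_cases hva : v = a
          · rw [hva, h.lk_a]; exact hLa
          · by_cases hvb : v = b
            · rw [hvb, h.symm.lk_a]; exact hLb
            · by_cases hadj : H.Adj a v ∧ H.Adj b v
              · rw [h.lk_both hv hadj.1 hadj.2]
                exact ih (h.link hadj.1 hadj.2) (hN.lk hv) (hS.lk hv)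
              · rw [h.lk_one hv hva hvb hadj]
                exact HS_congr (h.cong_one hadj) (hS.lk hv)

theorem lam_congr (hc : ∀ y ∈ W, ∀ z ∈ W, H.Adj y z ↔ H'.Adj y z) : lam H W = lam H' W := by
  rw [lam, lam, fe, fe, cl_congr hc]

theorem IsSd.lam_eq (h : IsSd H H' W a b x) :
    lam H' (insert x W) = lam H W - 1 / 4 * lam H (lk H (lk H W a) b) := by
  have hbL : b ∈ lk H W a := mem_lk.2 ⟨h.hb, h.hab⟩
  have e1 := fe_erase (H := H') (Finset.mem_insert_self x W) (-1 / 2 : ℚ)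
  rw [Finset.erase_insert h.hx, h.lk_x] at e1
  have e2 : fe H' ({a, b} ∪ lk H (lk H W a) b) (-1 / 2 : ℚ) = 0 := by
    have := lam_join h.full
    rw [lam_pair h.hab.ne h.nab, zero_mul] at this
    exact this
  have e3 := fe_erase (H := H') h.ha (-1 / 2 : ℚ)
  have e4 : lk H' W a = (lk H W a).erase b := by
    ext z
    rw [mem_lk, Finset.mem_erase, mem_lk]
    constructor
    · rintro ⟨h3, h4⟩
      obtain ⟨h5, h6, h7⟩ := (h.h1 a h.ha z h3).1 h4
      exact ⟨fun e => h6 ⟨rfl, e⟩, h3, h5⟩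
    · rintro ⟨h3, h4, h5⟩
      exact ⟨h4, (h.h1 a h.ha z h4).2 ⟨h5, fun e => h3 e.2, fun e => h.hab.ne e.1⟩⟩
  have e5 := fe_erase (H := H) h.ha (-1 / 2 : ℚ)
  have e6 := fe_erase (H := H) hbL (-1 / 2 : ℚ)
  have e7 : fe H' (W.erase a) (-1 / 2 : ℚ) = fe H (W.erase a) (-1 / 2 : ℚ) := (lam_congr
    (h.cong (Finset.erase_subset _ _) (fun hc => absurd rfl (Finset.mem_erase.1 hc.1).1))).symm
  have e8 : fe H' ((lk H W a).erase b) (-1 / 2 : ℚ) = fe H ((lk H W a).erase b) (-1 / 2 : ℚ) :=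
    (lam_congr (h.cong ((Finset.erase_subset _ _).trans lk_subset)
      (fun hc => absurd rfl (Finset.mem_erase.1 hc.2).1))).symm
  rw [e4, e7, e8] at e3
  rw [lam, lam, lam, e1, e2, e3, e5, e6]
  ring

end Homology

/-- the subdivided graph -/
def sdG {α : Type} (H : SimpleGraph α) (a b x : α) : SimpleGraph α where
  Adj y z := (y ≠ x ∧ z ≠ x ∧ H.Adj y z ∧ ¬ (y = a ∧ z = b) ∧ ¬ (y = b ∧ z = a)) ∨
    (y = x ∧ z ≠ x ∧ (z = a ∨ z = b ∨ (H.Adj a z ∧ H.Adj b z))) ∨
    (z = x ∧ y ≠ x ∧ (y = a ∨ y = b ∨ (H.Adj a y ∧ H.Adj b y)))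
  symm := ⟨fun y z h => by
    rcases h with ⟨h1, h2, h3, h4, h5⟩ | h | h
    · exact Or.inl ⟨h2, h1, h3.symm, fun e => h5 ⟨e.2, e.1⟩, fun e => h4 ⟨e.2, e.1⟩⟩
    · exact Or.inr (Or.inr h)
    · exact Or.inr (Or.inl h)⟩
  loopless := ⟨fun y h => by
    rcases h with ⟨_, _, h, _⟩ | ⟨h1, h2, _⟩ | ⟨h1, h2, _⟩
    · exact h.ne rfl
    · exact h2 h1
    · exact h2 h1⟩

theorem isSd_sdG {α : Type} {H : SimpleGraph α} {W : Finset α} {a b x : α} (ha : a ∈ W)
    (hb : b ∈ W) (hab : H.Adj a b) (hx : x ∉ W) : IsSd H (sdG H a b x) W a b x where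
  ha := ha
  hb := hb
  hab := hab
  hx := hx
  h1 := by
    intro y hy z hz
    have hyx : y ≠ x := fun e => hx (e ▸ hy)
    have hzx : z ≠ x := fun e => hx (e ▸ hz)
    change (_ ∨ _ ∨ _) ↔ _
    constructor
    · rintro (h | h | h)
      · exact h.2.2
      · exact absurd h.1 hyx
      · exact absurd h.1 hzx
    · exact fun h => Or.inl ⟨hyx, hzx, h⟩
  h2 := by
    intro z hz
    have hzx : z ≠ x := fun e => hx (e ▸ hz)
    change (_ ∨ _ ∨ _) ↔ _
    constructor
    · rintro (h | h | h)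
      · exact absurd rfl h.1
      · exact h.2.2
      · exact absurd h.1 hzx
    · exact fun h => Or.inr (Or.inl ⟨rfl, hzx, h⟩)

end Pool.Agent.D0H29.VD
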